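import Pool.Agent.SgR.Upper
import Pool.Agent.BrunHooley.Euler

/-! The sieve data of the degenerate family: `m i + m - 1` and `(m + 1) i + m`. -/

set_option autoImplicit false

namespace Pool.Agent.SgR

open Finset Pool.Agent.BrunHooley
open scoped Classical

/-- condition at the prime `p` for `i = s - 1` -/
def AD (m : ℕ) (p i : ℕ) : Prop := p ∣ m * i + (m - 1) ∨ p ∣ (m + 1) * i + m

theorem per_AD (m : ℕ) : Per (AD m) := by
  intro p i
  unfold AD
  have e1 : m * (i + p) + (m - 1) = m * i + (m - 1) + m * p := by ring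
  have e2 : (m + 1) * (i + p) + m = (m + 1) * i + m + (m + 1) * p := by ring
  rw [e1, e2, Nat.dvd_add_left (Dvd.intro_left _ rfl), Nat.dvd_add_left (Dvd.intro_left _ rfl)]

/-- one solution of a linear congruence -/
theorem card_lin {p a b : ℕ} (hp : p.Prime) (ha : ¬ p ∣ a) :
    ((range p).filter fun i => p ∣ a * i + b).card = 1 := by
  have : Fact p.Prime := ⟨hp⟩
  rw [Finset.card_eq_one]
  have ha0 : (a : ZMod p) ≠ 0 := by
    rw [Ne, ZMod.natCast_eq_zero_iff]; exact ha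
  refine ⟨(-(b : ZMod p) / a).val, ?_⟩
  ext i
  rw [mem_filter, mem_range, mem_singleton]
  constructor
  · rintro ⟨hi, hd⟩
    have h1 : ((a * i + b : ℕ) : ZMod p) = 0 := (ZMod.natCast_eq_zero_iff _ _).2 hd
    push_cast at h1
    have h2 : (i : ZMod p) = -(b : ZMod p) / a := by
      rw [eq_div_iff ha0]
      linear_combination h1
    rw [← h2, ZMod.val_natCast, Nat.mod_eq_of_lt hi]
  · intro hi
    refine ⟨by rw [hi]; exact ZMod.val_lt _, ?_⟩
    rw [← ZMod.natCast_eq_zero_iff]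
    push_cast
    rw [hi, ZMod.natCast_val, ZMod.cast_id]
    field_simp
    ring

theorem rho_AD {m p : ℕ} (hm : 1 ≤ m) (hp : p.Prime) :
    rho (AD m) p = (if p ∣ m then 0 else 1) + (if p ∣ m + 1 then 0 else 1) := by
  have hsplit : rho (AD m) p = ((range p).filter fun i => p ∣ m * i + (m - 1)).card +
      ((range p).filter fun i => p ∣ (m + 1) * i + m).card := by
    have hu : ((range p).filter fun i => AD m p i) =
        ((range p).filter fun i => p ∣ m * i + (m - 1)) ∪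
        ((range p).filter fun i => p ∣ (m + 1) * i + m) := by
      ext i
      rw [mem_filter, mem_union, mem_filter, mem_filter]
      unfold AD
      tauto
    unfold rho
    rw [hu, Finset.card_union_of_disjoint]
    rw [Finset.disjoint_filter]
    intro i _ h1 h2
    have h3 : p ∣ i + 1 := by
      have e : (m + 1) * i + m = (m * i + (m - 1)) + (i + 1) := by
        have : (m + 1) * i = m * i + i := by ring
        omega
      rw [e] at h2
      exact (Nat.dvd_add_right h1).1 h2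
    have h4 : p ∣ m * (i + 1) := Dvd.dvd.mul_left h3 m
    have e5 : m * (i + 1) = m * i + (m - 1) + 1 := by
      have : m * (i + 1) = m * i + m := by ring
      omega
    rw [e5] at h4
    have h6 := (Nat.dvd_add_right h1).1 h4
    exact hp.one_lt.ne' (Nat.dvd_one.1 h6)
  rw [hsplit]
  congr 1
  · split_ifs with h
    · rw [Finset.card_eq_zero, Finset.filter_eq_empty_iff]
      intro i _ h1
      have h4 : p ∣ m * (i + 1) := Dvd.dvd.mul_right h _
      have e5 : m * (i + 1) = m * i + (m - 1) + 1 := by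
        have : m * (i + 1) = m * i + m := by ring
        omega
      rw [e5] at h4
      have h6 := (Nat.dvd_add_right h1).1 h4
      exact hp.one_lt.ne' (Nat.dvd_one.1 h6)
    · exact card_lin hp h
  · split_ifs with h
    · rw [Finset.card_eq_zero, Finset.filter_eq_empty_iff]
      intro i _ h1
      have h4 : p ∣ (m + 1) * (i + 1) := Dvd.dvd.mul_right h _
      have e5 : (m + 1) * (i + 1) = (m + 1) * i + m + 1 := by ring
      rw [e5] at h4
      have h6 := (Nat.dvd_add_right h1).1 h4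
      exact hp.one_lt.ne' (Nat.dvd_one.1 h6)
    · exact card_lin hp h

theorem rho_le {m p : ℕ} (hm : 1 ≤ m) (hp : p.Prime) : rho (AD m) p ≤ 2 ∧ rho (AD m) p < p := by
  rw [rho_AD hm hp]
  have h2 := hp.two_le
  constructor
  · split_ifs <;> omega
  · rcases Nat.lt_or_ge 2 p with h | h
    · split_ifs <;> omega
    · have hp2 : p = 2 := by omega
      subst hp2
      split_ifs <;> omega

private lemma tot_root {c x : ℝ} (hc : 0 ≤ c) (h : c ^ 4 ≤ x) : c ≤ x ^ (1 / 4 : ℝ) := by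
  have h1 : c = (c ^ 4) ^ (1 / 4 : ℝ) := by
    rw [← Real.rpow_natCast c 4, ← Real.rpow_mul hc]
    norm_num
  rw [h1]
  exact Real.rpow_le_rpow (by positivity) h (by norm_num)

private lemma tot_big {p : ℕ} (hp : 5 ≤ p) : 1 ≤ (p : ℝ) ^ (1 / 4 : ℝ) * (1 - (p : ℝ)⁻¹) := by
  have hp5 : (5 : ℝ) ≤ p := by exact_mod_cast hp
  have h1 : (5 / 4 : ℝ) ≤ (p : ℝ) ^ (1 / 4 : ℝ) :=
    tot_root (by norm_num) (by norm_num; linarith)
  have h2 : (4 / 5 : ℝ) ≤ 1 - (p : ℝ)⁻¹ := by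
    have : (p : ℝ)⁻¹ ≤ (5 : ℝ)⁻¹ := inv_anti₀ (by norm_num) hp5
    norm_num at this ⊢
    linarith
  calc (1 : ℝ) = 5 / 4 * (4 / 5) := by norm_num
    _ ≤ _ := mul_le_mul h1 h2 (by norm_num) (by positivity)

private lemma tot_prod (n : ℕ) :
    (1 / 2 : ℝ) ≤ ∏ p ∈ n.primeFactors, ((p : ℝ) ^ (1 / 4 : ℝ) * (1 - (p : ℝ)⁻¹)) := by
  set f2 : ℝ := (2 : ℝ) ^ (1 / 4 : ℝ) * (1 - (2 : ℝ)⁻¹) with hf2
  set f3 : ℝ := (3 : ℝ) ^ (1 / 4 : ℝ) * (1 - (3 : ℝ)⁻¹) with hf3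
  have h2 : (1 / 2 : ℝ) ≤ f2 := by
    rw [hf2]
    have : (1 : ℝ) ≤ (2 : ℝ) ^ (1 / 4 : ℝ) := Real.one_le_rpow (by norm_num) (by norm_num)
    norm_num
    linarith
  have h3 : (1 / 2 : ℝ) ≤ f3 := by
    rw [hf3]
    have : (1 : ℝ) ≤ (3 : ℝ) ^ (1 / 4 : ℝ) := Real.one_le_rpow (by norm_num) (by norm_num)
    norm_num
    linarith
  have h23 : (1 / 2 : ℝ) ≤ f2 * f3 := by
    have e : f2 * f3 = (6 : ℝ) ^ (1 / 4 : ℝ) * (1 / 3) := by
      rw [hf2, hf3]
      have : (6 : ℝ) ^ (1 / 4 : ℝ) = (2 : ℝ) ^ (1 / 4 : ℝ) * (3 : ℝ) ^ (1 / 4 : ℝ) := by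
        rw [← Real.mul_rpow (by norm_num) (by norm_num)]
        norm_num
      rw [this]
      ring
    rw [e]
    have : (3 / 2 : ℝ) ≤ (6 : ℝ) ^ (1 / 4 : ℝ) := tot_root (by norm_num) (by norm_num)
    linarith
  have hle : ∏ p ∈ n.primeFactors, ((if p = 2 then f2 else 1) * (if p = 3 then f3 else 1)) ≤
      ∏ p ∈ n.primeFactors, ((p : ℝ) ^ (1 / 4 : ℝ) * (1 - (p : ℝ)⁻¹)) := by
    apply Finset.prod_le_prod
    · intro p _
      split_ifs <;> positivity
    · intro p hp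
      have hpp := Nat.prime_of_mem_primeFactors hp
      by_cases e2 : p = 2
      · subst e2
        simp [hf2]
      · by_cases e3 : p = 3
        · subst e3
          simp [hf3]
        · rw [if_neg e2, if_neg e3, mul_one]
          apply tot_big
          have h4 : p ≠ 4 := by
            rintro rfl
            exact absurd hpp (by norm_num)
          have := hpp.two_le
          omega
  refine le_trans ?_ hle
  rw [Finset.prod_mul_distrib, Finset.prod_ite_eq', Finset.prod_ite_eq']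
  split_ifs
  · exact h23
  · rw [mul_one]; exact h2
  · rw [one_mul]; exact h3
  · norm_num

private lemma tot_low {n : ℕ} (h0 : 1 ≤ n) :
    (1 / 2 : ℝ) ≤ (n : ℝ) ^ (1 / 4 : ℝ) * ∏ p ∈ n.primeFactors, (1 - (p : ℝ)⁻¹) := by
  have hP : ∏ p ∈ n.primeFactors, (p : ℝ) ^ (1 / 4 : ℝ) ≤ (n : ℝ) ^ (1 / 4 : ℝ) := by
    rw [Real.finsetProd_rpow _ _ (fun i _ => Nat.cast_nonneg i)]
    apply Real.rpow_le_rpow
    · exact Finset.prod_nonneg fun i _ => Nat.cast_nonneg i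
    · have h9 : ((∏ p ∈ n.primeFactors, p : ℕ) : ℝ) ≤ n := by
        exact_mod_cast Nat.le_of_dvd h0 (Nat.prod_primeFactors_dvd n)
      rw [Nat.cast_prod] at h9
      exact h9
    · norm_num
  have h3 := tot_prod n
  rw [Finset.prod_mul_distrib] at h3
  have hq : 0 ≤ ∏ p ∈ n.primeFactors, (1 - (p : ℝ)⁻¹) := by
    apply Finset.prod_nonneg
    intro p hp
    have h4 := (Nat.prime_of_mem_primeFactors hp).one_lt
    have h5 : (1 : ℝ) < p := by exact_mod_cast h4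
    have := inv_lt_one_of_one_lt₀ h5
    linarith
  exact h3.trans (mul_le_mul_of_nonneg_right hP hq)

private lemma pz_prime {r p : ℕ} (h : p ∈ Pz r) : p.Prime := (mem_filter.1 h).2

private lemma one_sub_pos {p : ℕ} (hp : p.Prime) : (0 : ℝ) < 1 - (p : ℝ)⁻¹ := by
  have h5 : (1 : ℝ) < p := by exact_mod_cast hp.one_lt
  have := inv_lt_one_of_one_lt₀ h5
  linarith

/-- the sieve product -/
theorem W_le {m : ℕ} (hm : 1 ≤ m) (r : ℕ) :
    W (AD m) r * (2 ^ r * Real.log 2) ^ 2 ≤ 2 * ((m * (m + 1) : ℕ) : ℝ) ^ (1 / 4 : ℝ) := by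
  obtain ⟨N, hN⟩ : ∃ N, N = m * (m + 1) := ⟨_, rfl⟩
  have hN1 : 1 ≤ N := by rw [hN]; exact Nat.mul_pos hm (by omega)
  rw [← hN]
  have hpt : ∀ p ∈ Pz r, (1 - (rho (AD m) p : ℝ) / p) * (if p ∣ N then (1 - (p : ℝ)⁻¹) else 1) ≤
      (1 - (p : ℝ)⁻¹) ^ 2 := by
    intro p hp
    have hpp := pz_prime hp
    have hpos := one_sub_pos hpp
    have hp0 : (0 : ℝ) < p := by exact_mod_cast hpp.pos
    have hdv : p ∣ N ↔ p ∣ m ∨ p ∣ m + 1 := by rw [hN]; exact hpp.dvd_mul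
    by_cases h : p ∣ N
    · rw [if_pos h]
      have h1 : 1 ≤ rho (AD m) p := by
        rw [rho_AD hm hpp]
        have h2 : ¬ (p ∣ m ∧ p ∣ m + 1) := by
          rintro ⟨h3, h4⟩
          have := (Nat.dvd_add_right h3).1 h4
          exact hpp.one_lt.ne' (Nat.dvd_one.1 this)
        split_ifs with h3 h4 <;> omega
      have h1r : (1 : ℝ) ≤ rho (AD m) p := by exact_mod_cast h1
      have h2 : 1 - (rho (AD m) p : ℝ) / p ≤ 1 - (p : ℝ)⁻¹ := by
        rw [inv_eq_one_div]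
        have : (1 : ℝ) / p ≤ (rho (AD m) p : ℝ) / p := div_le_div_of_nonneg_right h1r hp0.le
        linarith
      calc _ ≤ (1 - (p : ℝ)⁻¹) * (1 - (p : ℝ)⁻¹) := mul_le_mul_of_nonneg_right h2 hpos.le
        _ = _ := by ring
    · rw [if_neg h, mul_one]
      have h1 : rho (AD m) p = 2 := by
        rw [rho_AD hm hpp]
        rw [hdv] at h
        push Not at h
        rw [if_neg h.1, if_neg h.2]
      rw [h1, div_eq_mul_inv]
      push_cast
      nlinarith [sq_nonneg ((p : ℝ)⁻¹)]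
  have hnn : ∀ p ∈ Pz r, 0 ≤ (1 - (rho (AD m) p : ℝ) / p) := by
    intro p hp
    have hpp := pz_prime hp
    have hp0 : (0 : ℝ) < p := by exact_mod_cast hpp.pos
    have h1 : (rho (AD m) p : ℝ) < p := by exact_mod_cast (rho_le hm hpp).2
    have : (rho (AD m) p : ℝ) / p ≤ 1 := by rw [div_le_one hp0]; exact h1.le
    linarith
  have hprod : W (AD m) r * ∏ p ∈ Pz r, (if p ∣ N then (1 - (p : ℝ)⁻¹) else 1) ≤
      (∏ p ∈ Pz r, (1 - (p : ℝ)⁻¹)) ^ 2 := by
    unfold W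
    rw [← Finset.prod_mul_distrib, ← Finset.prod_pow]
    apply Finset.prod_le_prod
    · intro p hp
      apply mul_nonneg (hnn p hp)
      split_ifs
      · exact (one_sub_pos (pz_prime hp)).le
      · norm_num
    · exact hpt
  have hlow : ∏ p ∈ N.primeFactors, (1 - (p : ℝ)⁻¹) ≤
      ∏ p ∈ Pz r, (if p ∣ N then (1 - (p : ℝ)⁻¹) else 1) := by
    rw [← Finset.prod_filter]
    have hsub : (Pz r).filter (fun p => p ∣ N) ⊆ N.primeFactors := by
      intro p hp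
      rw [mem_filter] at hp
      rw [Nat.mem_primeFactors]
      exact ⟨pz_prime hp.1, hp.2, by omega⟩
    rw [← Finset.prod_sdiff hsub]
    have h1 : ∏ p ∈ N.primeFactors \ (Pz r).filter (fun p => p ∣ N), (1 - (p : ℝ)⁻¹) ≤ 1 := by
      apply Finset.prod_le_one
      · intro p hp
        exact (one_sub_pos (Nat.prime_of_mem_primeFactors (mem_sdiff.1 hp).1)).le
      · intro p _
        have : (0 : ℝ) ≤ (p : ℝ)⁻¹ := by positivity
        linarith
    have h2 : 0 ≤ ∏ p ∈ (Pz r).filter (fun p => p ∣ N), (1 - (p : ℝ)⁻¹) :=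
      Finset.prod_nonneg fun p hp => (one_sub_pos (pz_prime (mem_filter.1 hp).1)).le
    exact mul_le_of_le_one_left h2 h1
  have hW0 : 0 ≤ W (AD m) r := Finset.prod_nonneg hnn
  have hmert : (2 ^ r * Real.log 2) * ∏ p ∈ Pz r, (1 - (p : ℝ)⁻¹) ≤ 1 := by
    have h1 := EulerAux.log_le_prod (2 ^ 2 ^ r) Nat.one_le_two_pow
    have e : (2 ^ 2 ^ r : ℕ).primesBelow = Pz r := rfl
    rw [e] at h1
    have e2 : Real.log ((2 ^ 2 ^ r : ℕ) : ℝ) = 2 ^ r * Real.log 2 := by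
      push_cast
      rw [Real.log_pow]
      push_cast
      rfl
    rw [e2] at h1
    have hP : 0 < ∏ p ∈ Pz r, (1 - (p : ℝ)⁻¹) :=
      Finset.prod_pos fun p hp => one_sub_pos (pz_prime hp)
    rw [Finset.prod_inv_distrib] at h1
    calc (2 ^ r * Real.log 2) * ∏ p ∈ Pz r, (1 - (p : ℝ)⁻¹) ≤
        (∏ p ∈ Pz r, (1 - (p : ℝ)⁻¹))⁻¹ * ∏ p ∈ Pz r, (1 - (p : ℝ)⁻¹) :=
          mul_le_mul_of_nonneg_right h1 hP.le
      _ = 1 := inv_mul_cancel₀ hP.ne'
  have hP0 : 0 ≤ ∏ p ∈ Pz r, (1 - (p : ℝ)⁻¹) :=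
    Finset.prod_nonneg fun p hp => (one_sub_pos (pz_prime hp)).le
  have hlog : (0 : ℝ) ≤ 2 ^ r * Real.log 2 := by
    have := Real.log_pos (by norm_num : (1 : ℝ) < 2)
    positivity
  have htot := tot_low hN1
  obtain ⟨F, hF⟩ : ∃ F, F = ∏ p ∈ N.primeFactors, (1 - (p : ℝ)⁻¹) := ⟨_, rfl⟩
  obtain ⟨G, hG⟩ : ∃ G, G = ∏ p ∈ Pz r, (if p ∣ N then (1 - (p : ℝ)⁻¹) else 1) := ⟨_, rfl⟩
  obtain ⟨P, hP⟩ : ∃ P, P = ∏ p ∈ Pz r, (1 - (p : ℝ)⁻¹) := ⟨_, rfl⟩
  rw [← hG, ← hP] at hprod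
  rw [← hF, ← hG] at hlow
  rw [← hF] at htot
  rw [← hP] at hmert hP0
  have hN4 : 0 ≤ (N : ℝ) ^ (1 / 4 : ℝ) := by positivity
  have hL2 : 0 ≤ (2 ^ r * Real.log 2) ^ 2 := by positivity
  have hWL : 0 ≤ W (AD m) r * (2 ^ r * Real.log 2) ^ 2 := mul_nonneg hW0 hL2
  have h1 : W (AD m) r * (2 ^ r * Real.log 2) ^ 2 * G ≤ 1 := by
    calc W (AD m) r * (2 ^ r * Real.log 2) ^ 2 * G = (W (AD m) r * G) * (2 ^ r * Real.log 2) ^ 2 := by
          ring
      _ ≤ P ^ 2 * (2 ^ r * Real.log 2) ^ 2 := mul_le_mul_of_nonneg_right hprod hL2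
      _ = ((2 ^ r * Real.log 2) * P) ^ 2 := by ring
      _ ≤ 1 := by
        have : 0 ≤ (2 ^ r * Real.log 2) * P := mul_nonneg hlog hP0
        nlinarith
  have h2 : W (AD m) r * (2 ^ r * Real.log 2) ^ 2 * F ≤ 1 :=
    (mul_le_mul_of_nonneg_left hlow hWL).trans h1
  have h3 : W (AD m) r * (2 ^ r * Real.log 2) ^ 2 * (1 / 2) ≤
      W (AD m) r * (2 ^ r * Real.log 2) ^ 2 * ((N : ℝ) ^ (1 / 4 : ℝ) * F) :=
    mul_le_mul_of_nonneg_left htot hWL
  have h4 : W (AD m) r * (2 ^ r * Real.log 2) ^ 2 * ((N : ℝ) ^ (1 / 4 : ℝ) * F) ≤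
      (N : ℝ) ^ (1 / 4 : ℝ) := by
    calc _ = (N : ℝ) ^ (1 / 4 : ℝ) * (W (AD m) r * (2 ^ r * Real.log 2) ^ 2 * F) := by ring
      _ ≤ (N : ℝ) ^ (1 / 4 : ℝ) * 1 := mul_le_mul_of_nonneg_left h2 hN4
      _ = _ := mul_one _
  linarith

end Pool.Agent.SgR
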