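import Pool.Agent.BrunHooley.Positive

/-!
# The upper bound of the Brun-Hooley sieve, any dimension

`sift_upper`: for every `κ` there are `u`, `r0`, `C` such that for `r ≥ r0`, every periodic family
`A` with `rho A p ≤ κ`, `rho A p < p` for the primes `p < 2^(2^r)` and every `M` the sifted count is
at most `C M W A r + 2^(2^r u)`.
-/

set_option autoImplicit false

namespace Pool.Agent.SgR

open Finset Pool.Agent.BrunHooley

theorem main_tr_upper (A : ℕ → ℕ → Prop) (hA : Per A) (b : ℕ → ℕ) (κ : ℕ) (hκ : 1 ≤ κ) (r M : ℕ)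
    (hrho : ∀ p ∈ Pz r, rho A p ≤ κ) :
    ∑ m ∈ range M, ∏ j ∈ range r, tr (b j) (Blk j) (chi A m) ≤
      M * ∏ j ∈ range r, tr (b j) (Blk j) (ww A) + ∏ j ∈ range r, EE κ (b j) j := by
  classical
  have h := average A hA M (fun j => (Blk j).powerset.filter (fun T => T.card ≤ b j))
    (fun _ T => (-1 : ℝ) ^ T.card) (fun j T => by rw [abs_pow, abs_neg, abs_one, one_pow]) r
    (fun j _ T hT => by
      simp only [mem_filter, mem_powerset] at hT
      exact hT.1) ∅ (fun p hp => absurd hp (notMem_empty p))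
  simp only [prod_empty, one_mul] at h
  have h2 : ∏ j ∈ range r, ∑ T ∈ (Blk j).powerset.filter (fun T => T.card ≤ b j),
      ∏ p ∈ T, (rho A p : ℝ) ≤ ∏ j ∈ range r, EE κ (b j) j := by
    apply prod_le_prod
    · intro j _
      apply sum_nonneg
      intro T _
      positivity
    · intro j hj
      exact err_tr A κ hκ (b j) j (fun p hp => hrho p (Blk_sub_Pz (mem_range.1 hj) hp))
  have h3 := (abs_le.1 (h.trans h2)).2
  have h4 : ∑ m ∈ range M, ∏ j ∈ range r, tr (b j) (Blk j) (chi A m) =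
      ∑ m ∈ range M, ∏ j ∈ range r, ∑ T ∈ (Blk j).powerset.filter (fun T => T.card ≤ b j),
        (-1 : ℝ) ^ T.card * ∏ p ∈ T, (if A p m then (1 : ℝ) else 0) := rfl
  have h5 : ∏ j ∈ range r, tr (b j) (Blk j) (ww A) =
      ∏ j ∈ range r, ∑ T ∈ (Blk j).powerset.filter (fun T => T.card ≤ b j),
        (-1 : ℝ) ^ T.card * ∏ p ∈ T, ((rho A p : ℝ) / p) := rfl
  rw [h4, h5]
  linarith

theorem sift_upper (κ : ℕ) : ∃ u r0 : ℕ, ∀ r ≥ r0, ∀ A : ℕ → ℕ → Prop, Per A →
    (∀ p ∈ Pz r, rho A p ≤ κ ∧ rho A p < p) → ∀ M : ℕ,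
      (sift A r M : ℝ) ≤ 2 * M * W A r + 2 ^ (2 ^ r * u) := by
  -- constants
  set K : ℕ := κ + 1 with hK
  have hK1 : 1 ≤ K := by omega
  obtain ⟨β, hβ⟩ := tail_small (K : ℝ) (Real.exp (-(2 * K)) / 2) (by positivity) (by positivity)
  obtain ⟨j1, hj1⟩ := blk_sum_le (3 / 10) (by norm_num)
  have hlog : Real.log 2 + 3 / 10 ≤ 1 := by
    have := Real.log_two_lt_d9
    norm_num at this ⊢
    linarith
  -- j0 : large primes in the blocks beyond j0
  set j0 : ℕ := max j1 (2 * K) with hj0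
  have hbig : ∀ j ≥ j0, ∀ p ∈ Blk j, 2 * K ≤ p := by
    intro j hj p hp
    have h1 := (mem_Blk hp).1
    have h2 : j < 2 ^ j := Nat.lt_two_pow_self
    have h3 : 2 ^ j < 2 ^ 2 ^ j := Nat.lt_two_pow_self
    have h4 : 2 * K ≤ j := (le_max_right _ _).trans hj
    omega
  -- growth
  obtain ⟨r1, hr1⟩ := growth (Real.log K) (2 * β * Real.log K) 0
  refine ⟨4 * β + 5, max r1 (j0 + 2 ^ 2 ^ j0 + 1), ?_⟩
  intro r hr A hA hrho M
  have hrr1 : r1 ≤ r := (le_max_left _ _).trans hr
  have hrj0 : j0 + 2 ^ 2 ^ j0 + 1 ≤ r := (le_max_right _ _).trans hr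
  have hj0r : j0 ≤ r := (Nat.le_add_right j0 (2 ^ 2 ^ j0 + 1)).trans hrj0
  have hrhoK : ∀ p ∈ Pz r, rho A p ≤ K := fun p hp => (hrho p hp).1.trans (by omega)
  -- densities
  have hw0 : ∀ p, 0 ≤ ww A p := fun p => by unfold ww; positivity
  have hw1 : ∀ j < r, ∀ p ∈ Blk j, ww A p < 1 := by
    intro j hj p hp
    have h1 := (hrho p (Blk_sub_Pz hj hp)).2
    have h2 := (mem_Blk hp).2.2.pos
    unfold ww
    rw [div_lt_one (by exact_mod_cast h2)]
    exact_mod_cast h1
  have hV : ∀ j < r, 0 < ∏ p ∈ Blk j, (1 - ww A p) := by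
    intro j hj
    apply prod_pos
    intro p hp
    linarith [hw1 j hj p hp]
  -- sums over large blocks
  have hsum : ∀ j < r, j0 ≤ j → ∑ p ∈ Blk j, ww A p ≤ K := by
    intro j hj hjj
    calc ∑ p ∈ Blk j, ww A p ≤ ∑ p ∈ Blk j, (K : ℝ) * (1 / p) := by
          apply sum_le_sum
          intro p hp
          unfold ww
          rw [mul_one_div]
          apply div_le_div_of_nonneg_right _ (by positivity)
          exact_mod_cast hrhoK p (Blk_sub_Pz hj hp)
      _ = K * ∑ p ∈ Blk j, (1 : ℝ) / p := by rw [mul_sum]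
      _ ≤ K * 1 := by
          apply mul_le_mul_of_nonneg_left _ (by positivity)
          exact (hj1 j ((le_max_left _ _).trans hjj)).trans hlog
      _ = K := mul_one _
  have hVlow : ∀ j < r, j0 ≤ j → Real.exp (-(2 * K)) ≤ ∏ p ∈ Blk j, (1 - ww A p) := by
    intro j hj hjj
    have h1 : ∏ p ∈ Blk j, Real.exp (-(2 * ww A p)) ≤ ∏ p ∈ Blk j, (1 - ww A p) := by
      apply prod_le_prod
      · intro p _; positivity
      · intro p hp
        apply exp_le_one_sub (hw0 p)
        have h2 := hbig j hjj p hp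
        have h3 := hrhoK p (Blk_sub_Pz hj hp)
        have h4 := (mem_Blk hp).2.2.pos
        unfold ww
        rw [div_le_iff₀ (by exact_mod_cast h4)]
        have h5 : ((2 * K : ℕ) : ℝ) ≤ p := by exact_mod_cast h2
        have h6 : (rho A p : ℝ) ≤ K := by exact_mod_cast h3
        push_cast at h5
        linarith
    refine le_trans ?_ h1
    rw [← Real.exp_sum]
    apply Real.exp_le_exp.2
    rw [sum_neg_distrib, ← mul_sum]
    have := hsum j hj hjj
    linarith
  -- the parameters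
  have hbe : ∀ j, Even (bb β r j) := fun j => ⟨β + (r - 1 - j), by unfold bb; ring⟩
  have hbon := fun j (hj : j < r) => bonferroni (bb β r j) (hbe j) (Blk j) (ww A)
    (fun p _ => hw0 p) (fun p hp => (hw1 j hj p hp).le)
  set V : ℕ → ℝ := fun j => ∏ p ∈ Blk j, (1 - ww A p) with hVdef
  set Y : ℕ → ℝ := fun j => tr (bb β r j) (Blk j) (ww A) with hYdef
  set X : ℕ → ℝ := fun j => es (bb β r j + 1) (Blk j) (ww A) with hXdef
  have hVY : ∀ j < r, V j ≤ Y j := fun j hj => (hbon j hj).1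
  have hYX : ∀ j < r, Y j ≤ V j + X j := fun j hj => by
    have := (hbon j hj).2
    simp only [hYdef, hVdef, hXdef]
    linarith
  have hX0 : ∀ j, 0 ≤ X j := fun j => es_nonneg _ _ _ (fun p _ => hw0 p)
  -- bound for X j / V j
  have hXV : ∀ j ∈ range r, X j ≤ V j * (Real.exp (2 * K) *
      ((K : ℝ) ^ (2 * β + 2 * (r - 1 - j) + 1) / (2 * β + 2 * (r - 1 - j) + 1).factorial)) := by
    intro j hj
    rw [mem_range] at hj
    by_cases hjj : j0 ≤ j
    · have h1 : X j ≤ (∑ p ∈ Blk j, ww A p) ^ (bb β r j + 1) / (bb β r j + 1).factorial :=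
        es_le _ _ _ (fun p _ => hw0 p)
      have h2 : (∑ p ∈ Blk j, ww A p) ^ (bb β r j + 1) / ((bb β r j + 1).factorial : ℝ) ≤
          (K : ℝ) ^ (bb β r j + 1) / (bb β r j + 1).factorial := by
        apply div_le_div_of_nonneg_right _ (by positivity)
        exact pow_le_pow_left₀ (sum_nonneg (fun p _ => hw0 p)) (hsum j hj hjj) _
      have h3 := hVlow j hj hjj
      have h4 : (1 : ℝ) ≤ V j * Real.exp (2 * K) := by
        calc (1 : ℝ) = Real.exp (-(2 * K)) * Real.exp (2 * K) := by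
              rw [← Real.exp_add]; simp
          _ ≤ V j * Real.exp (2 * K) := mul_le_mul_of_nonneg_right h3 (by positivity)
      have h5 : 0 ≤ (K : ℝ) ^ (bb β r j + 1) / ((bb β r j + 1).factorial : ℝ) := by positivity
      calc X j ≤ (K : ℝ) ^ (bb β r j + 1) / (bb β r j + 1).factorial := h1.trans h2
        _ = 1 * ((K : ℝ) ^ (bb β r j + 1) / (bb β r j + 1).factorial) := (one_mul _).symm
        _ ≤ (V j * Real.exp (2 * K)) * ((K : ℝ) ^ (bb β r j + 1) / (bb β r j + 1).factorial) :=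
            mul_le_mul_of_nonneg_right h4 h5
        _ = _ := by unfold bb; ring
    · push Not at hjj
      have h1 : X j = 0 := by
        apply es_eq_zero
        have h2 := card_Blk_lt j
        have h3 : 2 ^ 2 ^ (j + 1) ≤ 2 ^ 2 ^ j0 :=
          Nat.pow_le_pow_right (by norm_num) (Nat.pow_le_pow_right (by norm_num) (by omega))
        unfold bb
        omega
      rw [h1]
      have := hV j hj
      positivity
  -- total loss
  have hloss : ∑ l ∈ range r, X l / V l ≤ 1 / 2 := by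
    calc ∑ l ∈ range r, X l / V l ≤ ∑ l ∈ range r, (Real.exp (2 * K) *
          ((K : ℝ) ^ (2 * β + 2 * (r - 1 - l) + 1) / (2 * β + 2 * (r - 1 - l) + 1).factorial)) := by
          apply sum_le_sum
          intro l hl
          rw [div_le_iff₀ (hV l (mem_range.1 hl)), mul_comm]
          exact hXV l hl
      _ = Real.exp (2 * K) * ∑ l ∈ range r,
          ((K : ℝ) ^ (2 * β + 2 * (r - 1 - l) + 1) / (2 * β + 2 * (r - 1 - l) + 1).factorial) := by
          rw [mul_sum]
      _ = Real.exp (2 * K) * ∑ i ∈ range r,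
          ((K : ℝ) ^ (2 * β + 2 * i + 1) / (2 * β + 2 * i + 1).factorial) := by
          congr 1
          exact sum_range_reflect (fun i =>
            ((K : ℝ) ^ (2 * β + 2 * i + 1) / ((2 * β + 2 * i + 1).factorial : ℝ))) r
      _ ≤ Real.exp (2 * K) * (Real.exp (-(2 * K)) / 2) :=
          mul_le_mul_of_nonneg_left (hβ r) (by positivity)
      _ = 1 / 2 := by
          rw [← mul_div_assoc, ← Real.exp_add]; simp
  -- main term
  have hYpos : ∀ j ∈ range r, 0 < Y j := fun j hj =>
    lt_of_lt_of_le (hV j (mem_range.1 hj)) (hVY j (mem_range.1 hj))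
  have hmain : ∏ j ∈ range r, Y j ≤ 2 * ∏ j ∈ range r, V j := by
    have h1 : ∏ j ∈ range r, Y j ≤ ∏ j ∈ range r, (V j * Real.exp (X j / V j)) := by
      apply prod_le_prod (fun j hj => (hYpos j hj).le)
      intro j hj
      have hVj := hV j (mem_range.1 hj)
      refine (hYX j (mem_range.1 hj)).trans ?_
      have h2 := Real.add_one_le_exp (X j / V j)
      have h3 : V j + X j = V j * (X j / V j + 1) := by
        rw [mul_add, mul_div_cancel₀ _ hVj.ne', mul_one, add_comm]
      rw [h3]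
      exact mul_le_mul_of_nonneg_left h2 hVj.le
    rw [prod_mul_distrib, ← Real.exp_sum] at h1
    have h2 : Real.exp (∑ l ∈ range r, X l / V l) ≤ 2 := by
      have h3 : Real.exp (∑ l ∈ range r, X l / V l) ≤ Real.exp (1 / 2) := Real.exp_le_exp.2 hloss
      have h4 : Real.exp (1 / 2) ≤ 2 := by
        have h5 : Real.exp (1 / 2) * Real.exp (1 / 2) = Real.exp 1 := by
          rw [← Real.exp_add]; norm_num
        have h6 := Real.exp_one_lt_d9
        have h7 : 0 < Real.exp (1 / 2) := Real.exp_pos _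
        nlinarith
      linarith
    have h3 : 0 < ∏ j ∈ range r, V j := prod_pos fun j hj => hV j (mem_range.1 hj)
    nlinarith
  -- the sieve
  have h1 : (sift A r M : ℝ) ≤ ∑ m ∈ range M, ∏ j ∈ range r, tr (bb β r j) (Blk j) (chi A m) := by
    rw [sift_eq_sum]
    apply sum_le_sum
    intro m _
    apply prod_le_prod
    · intro j _
      apply prod_nonneg
      intro p _
      linarith [chi_le_one A m p]
    · intro j _
      exact (bonferroni (bb β r j) (hbe j) (Blk j) (chi A m)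
        (fun p _ => chi_nonneg A m p) (fun p _ => chi_le_one A m p)).1
  have h2 := main_tr_upper A hA (bb β r) K hK1 r M hrhoK
  have hE := prod_EE_le K β r hK1
  have hE2 : (K : ℝ) ^ (2 * β * r + r ^ 2) * 2 ^ (2 ^ r * (4 * β + 4)) ≤
      2 ^ (2 ^ r * (4 * β + 5)) := by
    have hKpos : (0 : ℝ) < K := by exact_mod_cast hK1
    have h3 : (K : ℝ) ^ (2 * β * r + r ^ 2) ≤ 2 ^ (2 ^ r) := by
      rw [← Real.exp_log (pow_pos hKpos (2 * β * r + r ^ 2)), Real.log_pow,
        ← Real.exp_log (pow_pos (by norm_num : (0 : ℝ) < 2) (2 ^ r)), Real.log_pow]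
      apply Real.exp_le_exp.2
      have := hr1 r hrr1
      push_cast
      nlinarith
    have e : (2 : ℝ) ^ (2 ^ r * (4 * β + 5)) = 2 ^ (2 ^ r) * 2 ^ (2 ^ r * (4 * β + 4)) := by
      rw [← pow_add]
      congr 1
      ring
    rw [e]
    exact mul_le_mul_of_nonneg_right h3 (by positivity)
  have h5 : W A r = ∏ j ∈ range r, V j := by
    unfold W
    rw [prod_Pz]
    rfl
  have h6 : (M : ℝ) * ∏ j ∈ range r, Y j ≤ M * (2 * ∏ j ∈ range r, V j) :=
    mul_le_mul_of_nonneg_left hmain (Nat.cast_nonneg _)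
  rw [h5]
  simp only [hYdef] at h6
  linarith

end Pool.Agent.SgR
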